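import Pool.Agent.W123.LR.Main

set_option autoImplicit false

open Filter Topology

namespace Pool.Agent.W123.LR

open Pool.Agent.H357R2.SI Pool.Agent.W123.FS

lemma pcl_eq_pc (X Y : ℕ) : pcl (X + 1) (X + Y + 1) = pc X (X + Y) := by
  unfold pcl pc
  congr 1
  ext x
  rw [Finset.mem_filter, Finset.mem_filter, Finset.mem_Ico, Finset.mem_Ioc]
  constructor
  · rintro ⟨h1, h2⟩; exact ⟨by omega, h2⟩
  · rintro ⟨h1, h2⟩; exact ⟨by omega, h2⟩

/-- local second moment -/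
lemma second_moment_local (θ : ℝ) (hθ0 : 0 < θ) : ∃ C : ℝ, 1 ≤ C ∧ ∃ u0 : ℕ,
    ∀ X Y T : ℕ, 3 ≤ X → (X : ℝ) ^ θ ≤ Y → u0 ≤ Y → T ≤ Y → (T : ℝ) ≤ Real.log X →
      ∑ n ∈ Finset.Ico (X + 1) (X + 1 + Y), ((pc n (n + T) : ℝ)) ^ 2 ≤ C * Y := by
  obtain ⟨C1, hC1, u0, hps⟩ := pair_sieve
  obtain ⟨C2, hC2, hsg⟩ := sum_sg_sq
  obtain ⟨Y₀, hY₀2, hbt⟩ := Pool.Agent.H932R4.MO.bt3
  refine ⟨1 + 6 / θ + 4 * C1 * C2 / θ ^ 2, by
    have : 0 ≤ 6 / θ := by positivity
    have : 0 ≤ 4 * C1 * C2 / θ ^ 2 := by positivity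
    linarith, max u0 Y₀, ?_⟩
  intro X Y T hX3 hXY hYu hTY hTL
  have hYu0 : u0 ≤ Y := (le_max_left _ _).trans hYu
  have hYY0 : Y₀ ≤ Y := (le_max_right _ _).trans hYu
  have hX3r : (3 : ℝ) ≤ X := by exact_mod_cast hX3
  set L : ℝ := Real.log X with hL
  have hL0 : 0 < L := Real.log_pos (by linarith)
  have hYpos : (0 : ℝ) < Y := lt_of_lt_of_le (by positivity) hXY
  have hTYr : (T : ℝ) ≤ Y := by exact_mod_cast hTY
  have hT0 : (0 : ℝ) ≤ T := Nat.cast_nonneg T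
  have hlogZ : θ * L ≤ Real.log ((Y + T : ℕ) : ℝ) := by
    rw [hL, ← Real.log_rpow (by linarith)]
    apply Real.log_le_log (by positivity)
    push_cast
    linarith
  have hZ2 : ((Y + T : ℕ) : ℝ) ≤ 2 * Y := by push_cast; linarith
  have h1 : (∑ n ∈ Finset.Ico (X + 1) (X + 1 + Y), ((pc n (n + T) : ℝ)) ^ 2) ≤
      T * (((PA (X + 1) (Y + T)).card : ℝ) + 2 * ∑ h ∈ Finset.Icc 1 T,
        (((Finset.Ioc (X + 1) (X + 1 + (Y + T))).filter
          (fun n => n.Prime ∧ (n + h).Prime)).card : ℝ)) := by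
    exact_mod_cast second_moment_loc (X + 1) Y T
  have h2 : ((PA (X + 1) (Y + T)).card : ℝ) ≤ 6 * Y / (θ * L) := by
    have h3 := hbt (X + 1) (Y + T) (by omega)
    refine h3.trans ?_
    apply div_le_div₀ (by positivity) _ (by positivity) hlogZ
    linarith
  have h3 : ∀ h ∈ Finset.Icc 1 T,
      (((Finset.Ioc (X + 1) (X + 1 + (Y + T))).filter
        (fun n => n.Prime ∧ (n + h).Prime)).card : ℝ) ≤
      2 * C1 * Y / (θ * L) ^ 2 * sg h ^ 2 := by
    intro h hh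
    rw [Finset.mem_Icc] at hh
    refine (hps h (X + 1) (Y + T) (by omega) (by omega)).trans ?_
    calc C1 * sg h ^ 2 * ((Y + T : ℕ) : ℝ) / Real.log ((Y + T : ℕ) : ℝ) ^ 2
        ≤ C1 * sg h ^ 2 * (2 * Y) / (θ * L) ^ 2 := by
          apply div_le_div₀ (by positivity) _ (by positivity)
          · gcongr
          · gcongr
      _ = 2 * C1 * Y / (θ * L) ^ 2 * sg h ^ 2 := by ring
  have h4 : ∑ h ∈ Finset.Icc 1 T,
      (((Finset.Ioc (X + 1) (X + 1 + (Y + T))).filter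
        (fun n => n.Prime ∧ (n + h).Prime)).card : ℝ) ≤
      2 * C1 * Y / (θ * L) ^ 2 * (C2 * T) := by
    refine (Finset.sum_le_sum h3).trans ?_
    rw [← Finset.mul_sum]
    exact mul_le_mul_of_nonneg_left (hsg T) (by positivity)
  have h5 : (T : ℝ) * (6 * Y / (θ * L)) ≤ 6 / θ * Y := by
    calc (T : ℝ) * (6 * Y / (θ * L)) ≤ L * (6 * Y / (θ * L)) := by gcongr
      _ = 6 / θ * Y := by field_simp
  have h6 : (T : ℝ) * (2 * (2 * C1 * Y / (θ * L) ^ 2 * (C2 * T))) ≤ 4 * C1 * C2 / θ ^ 2 * Y := by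
    calc (T : ℝ) * (2 * (2 * C1 * Y / (θ * L) ^ 2 * (C2 * T))) ≤
        L * (2 * (2 * C1 * Y / (θ * L) ^ 2 * (C2 * L))) := by gcongr
      _ = 4 * C1 * C2 / θ ^ 2 * Y := by field_simp; ring
  calc _ ≤ _ := h1
    _ ≤ T * (6 * Y / (θ * L) + 2 * (2 * C1 * Y / (θ * L) ^ 2 * (C2 * T))) := by
        apply mul_le_mul_of_nonneg_left _ hT0
        linarith
    _ = T * (6 * Y / (θ * L)) + T * (2 * (2 * C1 * Y / (θ * L) ^ 2 * (C2 * T))) := by ring
    _ ≤ (1 + 6 / θ + 4 * C1 * C2 / θ ^ 2) * Y := by nlinarith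

open Classical in
theorem regular (θ : ℝ) (hθ0 : 0 < θ) (hθ1 : θ ≤ 1) (hS : Pool.Agent.H932R4.MO.ShortIntervals θ) :
    ∃ c₁ c₂ K c : ℝ, 0 < c₁ ∧ 0 < c₂ ∧ 0 < K ∧ 0 < c ∧ ∀ᶠ X : ℕ in atTop, ∀ Y : ℕ,
      (X : ℝ) ^ θ ≤ Y → Y ≤ X →
      c * Y ≤ (((Finset.Ioc X (X + Y)).filter (fun n => Reg c₁ c₂ K n)).card : ℝ) := by
  obtain ⟨cS, hcS, X₀, hX₀2, hS⟩ := hS
  obtain ⟨Y₀, hY₀2, hbt⟩ := Pool.Agent.H932R4.MO.bt3
  obtain ⟨C3, hC3, u0, hmom⟩ := second_moment_local θ hθ0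
  set c₀ : ℝ := (cS / 8) ^ 2 / C3 with hc₀
  have hC30 : 0 < C3 := by linarith
  have hc₀0 : 0 < c₀ := by positivity
  set lam : ℝ := 24 / (θ * c₀) with hlam
  have hlam0 : 0 < lam := by positivity
  set K' : ℝ := 2 + 16 * lam / cS with hK'
  have hK'0 : 0 < K' := by positivity
  refine ⟨cS / 512, 2 * (lam + 3 / θ), 2 * K', c₀ / 2, by positivity, by positivity, by positivity,
    by positivity, ?_⟩
  have hXr : Tendsto (fun X : ℕ => (X : ℝ)) atTop atTop := tendsto_natCast_atTop_atTop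
  have hlogX : Tendsto (fun X : ℕ => Real.log (X : ℝ)) atTop atTop :=
    Real.tendsto_log_atTop.comp hXr
  have hpow : Tendsto (fun X : ℕ => (X : ℝ) ^ θ) atTop atTop :=
    (tendsto_rpow_atTop hθ0).comp hXr
  have hpowlog : ∀ M : ℝ, 0 < M → ∀ᶠ X : ℕ in atTop, M * Real.log X ^ 2 ≤ (X : ℝ) ^ θ := by
    intro M hM
    have h := (isLittleO_log_rpow_atTop (by positivity : (0 : ℝ) < θ / 2)).bound
      (by positivity : (0 : ℝ) < 1 / (M + 1))
    filter_upwards [hXr.eventually h, eventually_ge_atTop 1] with X hX hX1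
    have hX1' : (1 : ℝ) ≤ X := by exact_mod_cast hX1
    have hl := Real.log_nonneg hX1'
    rw [Real.norm_of_nonneg hl, Real.norm_of_nonneg (by positivity)] at hX
    rw [div_mul_eq_mul_div, one_mul, le_div_iff₀ (by positivity)] at hX
    have e : (X : ℝ) ^ θ = (X : ℝ) ^ (θ / 2) * (X : ℝ) ^ (θ / 2) := by
      rw [← Real.rpow_add (by linarith)]
      congr 1
      ring
    rw [e]
    have h1 : 0 ≤ Real.log X * (M + 1) := by positivity
    calc M * Real.log X ^ 2 ≤ (Real.log X * (M + 1)) * (Real.log X * (M + 1)) := by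
          have h2 : 0 ≤ Real.log (X : ℝ) ^ 2 := sq_nonneg _
          have h3 : M ≤ (M + 1) * (M + 1) := by nlinarith
          calc M * Real.log X ^ 2 ≤ (M + 1) * (M + 1) * Real.log X ^ 2 :=
                mul_le_mul_of_nonneg_right h3 h2
            _ = _ := by ring
      _ ≤ _ := mul_le_mul hX hX h1 (by positivity)
  filter_upwards [eventually_ge_atTop (2 * X₀ + 3), hlogX.eventually_ge_atTop 2,
    hpowlog (4 / cS) (by positivity), hpowlog (2 * (K' + 1)) (by positivity),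
    hpow.eventually_ge_atTop ((Y₀ : ℝ) + u0 + 2)] with X hXX hL2 e3 e5 e4
  intro Y hYθ hYX
  set L : ℝ := Real.log X with hL
  have hL0 : 0 < L := by linarith
  have hXpos : (0 : ℝ) < X := by exact_mod_cast (by omega : 0 < X)
  have hYbig : (Y₀ : ℝ) + u0 + 2 ≤ Y := e4.trans hYθ
  have hYbign : Y₀ + u0 + 2 ≤ Y := by exact_mod_cast hYbig
  have hYpos : (0 : ℝ) < Y := by
    have : 0 < Y := by omega
    exact_mod_cast this
  set T : ℕ := ⌊L⌋₊ with hT
  have hT1 : (T : ℝ) ≤ L := Nat.floor_le hL0.le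
  have hT2 : L / 2 ≤ T := by
    have := Nat.lt_floor_add_one L
    rw [← hT] at this
    linarith
  have hLL : L ≤ L ^ 2 := by nlinarith
  have hYK : 2 * (K' + 1) * L ≤ Y := by
    have : 2 * (K' + 1) * L ≤ 2 * (K' + 1) * L ^ 2 := by gcongr
    linarith
  have hTY : T ≤ Y := by
    have : (T : ℝ) ≤ Y := by nlinarith
    exact_mod_cast this
  have hlogY : θ * L ≤ Real.log Y := by
    rw [hL, ← Real.log_rpow hXpos]
    exact Real.log_le_log (by positivity) hYθ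
  set c : ℝ := cS / (8 * L) with hc
  have hc0 : 0 < c := by positivity
  -- good primes
  set P := (Finset.Ico (X + 1) (X + Y + 1)).filter Nat.Prime with hP
  set RG := (Finset.Ico (X + 1) (X + Y + 1)).filter (fun n => ∀ H : ℕ, 1 ≤ H →
      H ≤ Y → c * H ≤ pcl n (n + H)) with hRG
  set LG := (Finset.Ico (X + 1) (X + Y + 1)).filter (fun n => ∀ H : ℕ, 1 ≤ H →
      H ≤ Y → c * H ≤ pcl (n + 1 - H) (n + 1)) with hLG
  have hRb := gc_lower c hc0 Y Y (X + 1) (X + Y + 1) (by omega) (by omega)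
  have hLb := gc_lower_left c hc0 Y Y (X + 1) (X + Y + 1) (by omega) (by omega) (by omega)
  rw [← hRG] at hRb
  rw [← hLG] at hLb
  have hlen : ((X + Y + 1 : ℕ) : ℝ) - ((X + 1 : ℕ) : ℝ) + Y = 2 * Y := by push_cast; ring
  rw [hlen] at hRb hLb
  have hPc : (P.card : ℝ) = pcl (X + 1) (X + Y + 1) := rfl
  have hPlow : cS * Y / L ≤ P.card := by
    rw [hPc, pcl_eq_pc]
    exact hS X Y (by omega) hYθ hYX
  have hcY : c * (2 * Y) = cS * Y / L / 4 := by rw [hc]; field_simp; norm_num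
  rw [hcY, ← hPc] at hRb hLb
  have hsing : ∀ n : ℕ, c * ((1 : ℕ) : ℝ) ≤ pcl n (n + 1) → n.Prime := by
    intro n h1
    by_contra hnp
    have h2 : pcl n (n + 1) = 0 := by
      unfold pcl
      rw [Nat.Ico_succ_singleton, Finset.filter_singleton, if_neg hnp]
      rfl
    rw [h2] at h1
    push_cast at h1
    linarith
  have hRGP : RG ⊆ P := by
    intro n hn
    rw [hRG, Finset.mem_filter] at hn
    rw [hP, Finset.mem_filter]
    exact ⟨hn.1, hsing n (hn.2 1 le_rfl (by omega))⟩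
  have hLGP : LG ⊆ P := by
    intro n hn
    rw [hLG, Finset.mem_filter] at hn
    rw [hP, Finset.mem_filter]
    refine ⟨hn.1, hsing n ?_⟩
    have := hn.2 1 le_rfl (by omega)
    rwa [Nat.add_sub_cancel] at this
  have hGcard : cS * Y / L / 2 ≤ (RG ∩ LG).card := by
    have h1 := Finset.card_union_add_card_inter RG LG
    have h2 : (RG ∪ LG).card ≤ P.card := Finset.card_le_card (Finset.union_subset hRGP hLGP)
    have h3 : ((RG ∪ LG).card : ℝ) + (RG ∩ LG).card = RG.card + LG.card := by exact_mod_cast h1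
    have h4 : ((RG ∪ LG).card : ℝ) ≤ P.card := by exact_mod_cast h2
    linarith
  set G := (RG ∩ LG).filter (fun g => X + 1 + T ≤ g) with hG
  have hGc : cS * Y / L / 4 ≤ G.card := by
    have h1 : RG ∩ LG ⊆ G ∪ Finset.Ico (X + 1) (X + 1 + T) := by
      intro g hg
      rw [Finset.mem_union, hG, Finset.mem_filter, Finset.mem_Ico]
      rcases Nat.lt_or_ge g (X + 1 + T) with h | h
      · right
        rw [Finset.mem_inter, hRG, Finset.mem_filter, Finset.mem_Ico] at hg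
        exact ⟨hg.1.1.1, h⟩
      · exact Or.inl ⟨hg, h⟩
    have h2 := (Finset.card_le_card h1).trans (Finset.card_union_le _ _)
    rw [Nat.card_Ico, Nat.add_sub_cancel_left] at h2
    have h3 : ((RG ∩ LG).card : ℝ) ≤ G.card + T := by exact_mod_cast h2
    have h4 : (T : ℝ) ≤ cS * Y / L / 4 := by
      rw [div_div, le_div_iff₀ (by positivity)]
      have h5 : 4 / cS * L ^ 2 ≤ Y := e3.trans hYθ
      rw [div_mul_eq_mul_div, div_le_iff₀ hcS] at h5
      nlinarith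
    linarith
  -- integers near good primes
  have hGprop : ∀ g ∈ G, X + 1 + T ≤ g ∧ g < X + 1 + Y ∧ g.Prime := by
    intro g hg
    rw [hG, Finset.mem_filter, Finset.mem_inter] at hg
    have h1 := hRGP hg.1.1
    rw [hP, Finset.mem_filter, Finset.mem_Ico] at h1
    exact ⟨hg.2, by omega, h1.2⟩
  have hm := hmom X Y T (by omega) hYθ (by omega) hTY hT1
  have hCY : 0 < C3 * Y := by positivity
  have hA := moment_method_loc G (X + 1) (X + 1 + Y) T hGprop (C3 * Y) hCY hm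
  set A := (Finset.Ico (X + 1) (X + 1 + Y)).filter (fun m => ∃ g ∈ G, m < g ∧ g ≤ m + T) with hAdef
  have hAc : c₀ * Y ≤ A.card := by
    refine le_trans ?_ hA
    rw [le_div_iff₀ hCY]
    have h1 : L / 2 * (cS * Y / L / 4) ≤ (T : ℝ) * G.card :=
      mul_le_mul hT2 hGc (by positivity) (by positivity)
    have h2 : L / 2 * (cS * Y / L / 4) = cS / 8 * Y := by field_simp; norm_num
    rw [h2] at h1
    calc c₀ * Y * (C3 * Y) = (cS / 8 * Y) ^ 2 := by rw [hc₀]; field_simp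
      _ ≤ ((T : ℝ) * G.card) ^ 2 := by gcongr
  -- exceptional sets for the upper bounds
  set τ : ℝ := lam / L with hτ
  have hτ0 : 0 < τ := by positivity
  have hBT : ∀ B : ℕ, (pc B (B + 2 * Y) : ℝ) ≤ 6 * Y / (θ * L) := by
    intro B
    refine (hbt B (2 * Y) (by omega)).trans ?_
    have h1 : θ * L ≤ Real.log ((2 * Y : ℕ) : ℝ) := by
      refine hlogY.trans (Real.log_le_log hYpos ?_)
      push_cast; linarith
    apply div_le_div₀ (by positivity) _ (by positivity) h1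
    push_cast; linarith
  have hτc : 6 * (Y : ℝ) / (θ * L) = τ * (c₀ * Y / 4) := by
    rw [hτ, hlam]; field_simp; norm_num
  set UR := (Finset.Ico (X + 1) (X + 1 + 2 * Y)).filter (fun n => ∃ H : ℕ, 1 ≤ H ∧
      n + H ≤ X + 1 + 2 * Y ∧ τ * H < (pc n (n + H) : ℝ)) with hUR
  have hURc : (UR.card : ℝ) ≤ c₀ * Y / 4 := by
    have h1 := max_right τ hτ0 (X + 1 + 2 * Y) (2 * Y) (X + 1) (by omega) (by omega)
    rw [← hUR] at h1
    have h2 := h1.trans (hBT (X + 1))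
    rw [hτc] at h2
    exact le_of_mul_le_mul_left h2 hτ0
  set UL := (Finset.Ioc (X - Y) (X + Y)).filter (fun n => ∃ H : ℕ, 1 ≤ H ∧
      X - Y + H ≤ n ∧ τ * H < (pc (n - H) n : ℝ)) with hUL
  have hULc : (UL.card : ℝ) ≤ c₀ * Y / 4 := by
    have h1 := max_left τ hτ0 (X - Y) (2 * Y) (X + Y) (by omega) (by omega)
    rw [← hUL] at h1
    have h3 := hBT (X - Y)
    have e : X - Y + 2 * Y = X + Y := by omega
    rw [e] at h3
    have h2 := h1.trans h3
    rw [hτc] at h2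
    exact le_of_mul_le_mul_left h2 hτ0
  have hsub : A ⊆ (Finset.Ioc X (X + Y)).filter (fun n => Reg (cS / 512) (2 * (lam + 3 / θ))
      (2 * K') n) ∪ (UR ∪ UL) := by
    intro n hn
    rw [hAdef, Finset.mem_filter, Finset.mem_Ico] at hn
    obtain ⟨⟨hn1, hn2⟩, g, hg, hng, hgT⟩ := hn
    rw [Finset.mem_union, Finset.mem_union]
    by_contra hnot
    rw [not_or, not_or] at hnot
    obtain ⟨hn3, hn4, hn5⟩ := hnot
    apply hn3
    rw [Finset.mem_filter, Finset.mem_Ioc]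
    refine ⟨⟨by omega, by omega⟩, ?_⟩
    rw [hUR, Finset.mem_filter, Finset.mem_Ico] at hn4
    rw [hUL, Finset.mem_filter, Finset.mem_Ioc] at hn5
    rw [hG, Finset.mem_filter, Finset.mem_inter, hRG, hLG, Finset.mem_filter,
      Finset.mem_filter] at hg
    obtain ⟨⟨⟨hgm, hgR⟩, -, hgL⟩, -⟩ := hg
    rw [Finset.mem_Ico] at hgm
    refine reg_point X Y n g T X₀ Y₀ θ cS lam L K' hθ0 hθ1 hcS hlam0 hL hL2 hYθ hYX (by omega)
      hX₀2 (fun m H h1 h2 h3 => hS m H h1 h2 h3) (fun A' H h1 => hbt A' H h1) (by omega) hT1 hK'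
      hYK (by omega) (by omega) hng hgT ?_ ?_ hgR hgL
    · intro H h1 h2
      by_contra hcon
      exact hn4 ⟨⟨hn1, by omega⟩, H, h1, by omega, not_le.mp hcon⟩
    · intro H h1 h2
      by_contra hcon
      exact hn5 ⟨⟨by omega, by omega⟩, H, h1, by omega, not_le.mp hcon⟩
  have h1 := (Finset.card_le_card hsub).trans (Finset.card_union_le _ _)
  have h2 := Finset.card_union_le UR UL
  have h3 := h1.trans (Nat.add_le_add_left h2 _)
  have h4 : (A.card : ℝ) ≤ (((Finset.Ioc X (X + Y)).filter (fun n => Reg (cS / 512)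
      (2 * (lam + 3 / θ)) (2 * K') n)).card : ℝ) + (UR.card + UL.card) := by exact_mod_cast h3
  linarith

end Pool.Agent.W123.LR
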