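import Pool.Agent.W123.FS.Core
import Pool.Agent.H357R2.SI.Ladder

set_option autoImplicit false

open Filter Topology

namespace Pool.Agent.W123.LR

open Pool.Agent.H357R2.SI Pool.Agent.W123.FS

/-- the windows of primes to the left of `n`: primes in `(n - H, n]` -/
lemma pcl_le_one (a : ℕ) : (pcl a (a + 1) : ℝ) ≤ 1 := by exact_mod_cast pcl_succ_le a

open Classical in
/-- Greedy covering from the right: many right endpoints of dense windows. -/
lemma gc_lower_left (c : ℝ) (hc : 0 < c) (K : ℕ) (d : ℕ) : ∀ a b : ℕ, b - a = d → a ≤ b → K ≤ a →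
    (pcl a b : ℝ) ≤ c * ((b : ℝ) - a + K) + (((Finset.Ico a b).filter (fun n => ∀ H : ℕ, 1 ≤ H →
      H ≤ K → c * H ≤ pcl (n + 1 - H) (n + 1))).card : ℝ) := by
  induction d using Nat.strong_induction_on with
  | _ d ih =>
    intro a b hd hab hKa
    have hK0 : (0 : ℝ) ≤ K := Nat.cast_nonneg K
    rcases Nat.eq_or_lt_of_le hab with rfl | hlt
    · simp only [pcl, Finset.Ico_self, Finset.filter_empty, Finset.card_empty, Nat.cast_zero,
        sub_self, zero_add, add_zero]
      positivity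
    obtain ⟨b', rfl⟩ : ∃ b', b = b' + 1 := ⟨b - 1, by omega⟩
    have hltr : (a : ℝ) ≤ b' := by exact_mod_cast (by omega : a ≤ b')
    by_cases hgood : ∀ H : ℕ, 1 ≤ H → H ≤ K → c * H ≤ pcl (b' + 1 - H) (b' + 1)
    · have h1 := ih (b' - a) (by omega) a b' rfl (by omega) hKa
      have h2 := pcl_add (a := a) (b := b') (c := b' + 1) (by omega) (by omega)
      have h3 := pcl_le_one b'
      have h4 : (pcl a (b' + 1) : ℝ) ≤ 1 + pcl a b' := by
        rw [← h2]; push_cast
        linarith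
      have h5 : ((Finset.Ico a (b' + 1)).filter (fun n => ∀ H : ℕ, 1 ≤ H →
          H ≤ K → c * H ≤ pcl (n + 1 - H) (n + 1))).card =
          ((Finset.Ico a b').filter (fun n => ∀ H : ℕ,
          1 ≤ H → H ≤ K → c * H ≤ pcl (n + 1 - H) (n + 1))).card + 1 := by
        have h6 : Finset.Ico a (b' + 1) = insert b' (Finset.Ico a b') := by
          ext x
          rw [Finset.mem_insert, Finset.mem_Ico, Finset.mem_Ico]
          omega
        rw [h6, Finset.filter_insert, if_pos hgood, Finset.card_insert_of_notMem]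
        simp
      rw [h5]
      push_cast at h1 ⊢
      nlinarith
    · push Not at hgood
      obtain ⟨H, hH1, hHK, hH⟩ := hgood
      have hHKr : (H : ℝ) ≤ K := by exact_mod_cast hHK
      by_cases hend : b' + 1 ≤ a + H
      · have h1 : (pcl a (b' + 1) : ℝ) ≤ pcl (b' + 1 - H) (b' + 1) := by
          have : pcl a (b' + 1) ≤ pcl (b' + 1 - H) (b' + 1) := by
            unfold pcl
            exact Finset.card_le_card (Finset.filter_subset_filter _
              (Finset.Ico_subset_Ico_left (by omega)))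
          exact_mod_cast this
        have h2 : 0 ≤ (((Finset.Ico a (b' + 1)).filter (fun n => ∀ H : ℕ, 1 ≤ H →
          H ≤ K → c * H ≤ pcl (n + 1 - H) (n + 1))).card : ℝ) := Nat.cast_nonneg _
        have h3 : c * H ≤ c * (((b' + 1 : ℕ) : ℝ) - a + K) := by
          apply mul_le_mul_of_nonneg_left _ hc.le
          push_cast
          linarith
        linarith
      · push Not at hend
        have h1 := ih (b' + 1 - H - a) (by omega) a (b' + 1 - H) rfl (by omega) hKa
        have h2 := pcl_add (a := a) (b := b' + 1 - H) (c := b' + 1) (by omega) (by omega)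
        have h3 : (pcl a (b' + 1) : ℝ) = pcl a (b' + 1 - H) + pcl (b' + 1 - H) (b' + 1) := by
          exact_mod_cast h2.symm
        have h4 : ((Finset.Ico a (b' + 1 - H)).filter (fun n => ∀ H : ℕ, 1 ≤ H →
          H ≤ K → c * H ≤ pcl (n + 1 - H) (n + 1))).card ≤
          ((Finset.Ico a (b' + 1)).filter (fun n => ∀ H : ℕ, 1 ≤ H →
          H ≤ K → c * H ≤ pcl (n + 1 - H) (n + 1))).card := by
          apply Finset.card_le_card
          apply Finset.filter_subset_filter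
          apply Finset.Ico_subset_Ico_right
          omega
        have h5 : (((Finset.Ico a (b' + 1 - H)).filter (fun n => ∀ H : ℕ, 1 ≤ H →
          H ≤ K → c * H ≤ pcl (n + 1 - H) (n + 1))).card : ℝ) ≤
          (((Finset.Ico a (b' + 1)).filter (fun n => ∀ H : ℕ,
          1 ≤ H → H ≤ K → c * H ≤ pcl (n + 1 - H) (n + 1))).card : ℝ) := by exact_mod_cast h4
        have h6 : ((b' + 1 - H : ℕ) : ℝ) = (b' : ℝ) + 1 - H := by
          rw [Nat.cast_sub (by omega)]; push_cast; ring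
        rw [h3]
        rw [h6] at h1
        push_cast
        nlinarith

open Classical in
/-- right maximal inequality for primes -/
lemma max_right (τ : ℝ) (hτ : 0 < τ) (W d : ℕ) : ∀ a : ℕ, W - a = d → a ≤ W →
    τ * (((Finset.Ico a W).filter (fun n => ∃ H : ℕ, 1 ≤ H ∧ n + H ≤ W ∧
      τ * H < (pc n (n + H) : ℝ))).card : ℝ) ≤ pc a W := by
  induction d using Nat.strong_induction_on with
  | _ d ih =>
    intro a hd haW
    rcases Nat.eq_or_lt_of_le haW with rfl | hlt
    · simp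
    by_cases hbad : ∃ H : ℕ, 1 ≤ H ∧ a + H ≤ W ∧ τ * H < (pc a (a + H) : ℝ)
    · obtain ⟨H, hH1, hHW, hH⟩ := hbad
      have h1 := ih (W - (a + H)) (by omega) (a + H) rfl hHW
      have h2 : (Finset.Ico a W).filter (fun n => ∃ H : ℕ, 1 ≤ H ∧ n + H ≤ W ∧
          τ * H < (pc n (n + H) : ℝ)) ⊆ Finset.Ico a (a + H) ∪
          (Finset.Ico (a + H) W).filter (fun n => ∃ H : ℕ, 1 ≤ H ∧ n + H ≤ W ∧
          τ * H < (pc n (n + H) : ℝ)) := by
        intro n hn
        rw [Finset.mem_filter, Finset.mem_Ico] at hn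
        rw [Finset.mem_union, Finset.mem_Ico, Finset.mem_filter, Finset.mem_Ico]
        rcases Nat.lt_or_ge n (a + H) with h | h
        · exact Or.inl ⟨hn.1.1, h⟩
        · exact Or.inr ⟨⟨h, hn.1.2⟩, hn.2⟩
      have h3 := (Finset.card_le_card h2).trans (Finset.card_union_le _ _)
      rw [Nat.card_Ico, Nat.add_sub_cancel_left] at h3
      have h4 : ((((Finset.Ico a W).filter (fun n => ∃ H : ℕ, 1 ≤ H ∧ n + H ≤ W ∧
          τ * H < (pc n (n + H) : ℝ))).card : ℕ) : ℝ) ≤ H +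
          (((Finset.Ico (a + H) W).filter (fun n => ∃ H : ℕ, 1 ≤ H ∧ n + H ≤ W ∧
          τ * H < (pc n (n + H) : ℝ))).card : ℝ) := by exact_mod_cast h3
      have h5 : (pc a (a + H) : ℝ) + pc (a + H) W = pc a W := by
        exact_mod_cast pc_add (by omega) hHW
      have h6 := mul_le_mul_of_nonneg_left h4 hτ.le
      rw [mul_add] at h6
      linarith
    · have h1 := ih (W - (a + 1)) (by omega) (a + 1) rfl hlt
      have h2 : (Finset.Ico a W).filter (fun n => ∃ H : ℕ, 1 ≤ H ∧ n + H ≤ W ∧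
          τ * H < (pc n (n + H) : ℝ)) ⊆
          (Finset.Ico (a + 1) W).filter (fun n => ∃ H : ℕ, 1 ≤ H ∧ n + H ≤ W ∧
          τ * H < (pc n (n + H) : ℝ)) := by
        intro n hn
        rw [Finset.mem_filter, Finset.mem_Ico] at hn ⊢
        refine ⟨⟨?_, hn.1.2⟩, hn.2⟩
        rcases Nat.eq_or_lt_of_le hn.1.1 with h | h
        · subst h
          exact absurd hn.2 hbad
        · exact h
      have h3 : ((((Finset.Ico a W).filter (fun n => ∃ H : ℕ, 1 ≤ H ∧ n + H ≤ W ∧
          τ * H < (pc n (n + H) : ℝ))).card : ℕ) : ℝ) ≤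
          (((Finset.Ico (a + 1) W).filter (fun n => ∃ H : ℕ, 1 ≤ H ∧ n + H ≤ W ∧
          τ * H < (pc n (n + H) : ℝ))).card : ℝ) := by exact_mod_cast Finset.card_le_card h2
      have h4 : (pc (a + 1) W : ℝ) ≤ pc a W := by exact_mod_cast pc_anti (by omega)
      have h6 := mul_le_mul_of_nonneg_left h3 hτ.le
      linarith

open Classical in
/-- left maximal inequality for primes -/
lemma max_left (τ : ℝ) (hτ : 0 < τ) (A d : ℕ) : ∀ b : ℕ, b - A = d → A ≤ b →
    τ * (((Finset.Ioc A b).filter (fun n => ∃ H : ℕ, 1 ≤ H ∧ A + H ≤ n ∧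
      τ * H < (pc (n - H) n : ℝ))).card : ℝ) ≤ pc A b := by
  induction d using Nat.strong_induction_on with
  | _ d ih =>
    intro b hd hAb
    rcases Nat.eq_or_lt_of_le hAb with rfl | hlt
    · simp
    obtain ⟨b', rfl⟩ : ∃ b', b = b' + 1 := ⟨b - 1, by omega⟩
    by_cases hbad : ∃ H : ℕ, 1 ≤ H ∧ A + H ≤ b' + 1 ∧ τ * H < (pc (b' + 1 - H) (b' + 1) : ℝ)
    · obtain ⟨H, hH1, hHW, hH⟩ := hbad
      have h1 := ih (b' + 1 - H - A) (by omega) (b' + 1 - H) rfl (by omega)
      have h2 : (Finset.Ioc A (b' + 1)).filter (fun n => ∃ H : ℕ, 1 ≤ H ∧ A + H ≤ n ∧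
          τ * H < (pc (n - H) n : ℝ)) ⊆ Finset.Ioc (b' + 1 - H) (b' + 1) ∪
          (Finset.Ioc A (b' + 1 - H)).filter (fun n => ∃ H : ℕ, 1 ≤ H ∧ A + H ≤ n ∧
          τ * H < (pc (n - H) n : ℝ)) := by
        intro n hn
        rw [Finset.mem_filter, Finset.mem_Ioc] at hn
        rw [Finset.mem_union, Finset.mem_Ioc, Finset.mem_filter, Finset.mem_Ioc]
        rcases Nat.lt_or_ge (b' + 1 - H) n with h | h
        · exact Or.inl ⟨h, hn.1.2⟩
        · exact Or.inr ⟨⟨hn.1.1, h⟩, hn.2⟩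
      have h3 := (Finset.card_le_card h2).trans (Finset.card_union_le _ _)
      have h3' : (Finset.Ioc (b' + 1 - H) (b' + 1)).card = H := by
        rw [Nat.card_Ioc]; omega
      rw [h3'] at h3
      have h4 : ((((Finset.Ioc A (b' + 1)).filter (fun n => ∃ H : ℕ, 1 ≤ H ∧ A + H ≤ n ∧
          τ * H < (pc (n - H) n : ℝ))).card : ℕ) : ℝ) ≤ H +
          (((Finset.Ioc A (b' + 1 - H)).filter (fun n => ∃ H : ℕ, 1 ≤ H ∧ A + H ≤ n ∧
          τ * H < (pc (n - H) n : ℝ))).card : ℝ) := by exact_mod_cast h3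
      have h5 : (pc A (b' + 1 - H) : ℝ) + pc (b' + 1 - H) (b' + 1) = pc A (b' + 1) := by
        exact_mod_cast pc_add (by omega) (by omega)
      have h6 := mul_le_mul_of_nonneg_left h4 hτ.le
      rw [mul_add] at h6
      linarith
    · have h1 := ih (b' - A) (by omega) b' rfl (by omega)
      have h2 : (Finset.Ioc A (b' + 1)).filter (fun n => ∃ H : ℕ, 1 ≤ H ∧ A + H ≤ n ∧
          τ * H < (pc (n - H) n : ℝ)) ⊆
          (Finset.Ioc A b').filter (fun n => ∃ H : ℕ, 1 ≤ H ∧ A + H ≤ n ∧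
          τ * H < (pc (n - H) n : ℝ)) := by
        intro n hn
        rw [Finset.mem_filter, Finset.mem_Ioc] at hn ⊢
        refine ⟨⟨hn.1.1, ?_⟩, hn.2⟩
        rcases Nat.eq_or_lt_of_le hn.1.2 with h | h
        · subst h
          exact absurd hn.2 hbad
        · omega
      have h3 : ((((Finset.Ioc A (b' + 1)).filter (fun n => ∃ H : ℕ, 1 ≤ H ∧ A + H ≤ n ∧
          τ * H < (pc (n - H) n : ℝ))).card : ℕ) : ℝ) ≤
          (((Finset.Ioc A b').filter (fun n => ∃ H : ℕ, 1 ≤ H ∧ A + H ≤ n ∧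
          τ * H < (pc (n - H) n : ℝ))).card : ℝ) := by exact_mod_cast Finset.card_le_card h2
      have h4 : (pc A b' : ℝ) ≤ pc A (b' + 1) := by exact_mod_cast pc_mono (by omega)
      have h6 := mul_le_mul_of_nonneg_left h3 hτ.le
      linarith

/-- primes in `(A, A + Z]` -/
def PA (A Z : ℕ) : Finset ℕ := (Finset.Ioc A (A + Z)).filter Nat.Prime

lemma mem_PA {A Z p : ℕ} : p ∈ PA A Z ↔ p.Prime ∧ A < p ∧ p ≤ A + Z := by
  unfold PA
  rw [Finset.mem_filter, Finset.mem_Ioc]
  constructor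
  · rintro ⟨⟨h0, h1⟩, h2⟩; exact ⟨h2, h0, h1⟩
  · rintro ⟨h1, h2, h3⟩; exact ⟨⟨h2, h3⟩, h1⟩

/-- pairs of primes at distance less than `T` -/
lemma close_pairs_loc (A Z T : ℕ) :
    (((PA A Z) ×ˢ (PA A Z)).filter (fun x => x.1 < x.2 + T ∧ x.2 < x.1 + T)).card ≤
      (PA A Z).card + 2 * ∑ h ∈ Finset.Icc 1 T,
        ((Finset.Ioc A (A + Z)).filter (fun n => n.Prime ∧ (n + h).Prime)).card := by
  classical
  set D := (PA A Z).image (fun p => (p, p)) with hD
  set U := (Finset.Icc 1 T).biUnion (fun h =>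
    ((Finset.Ioc A (A + Z)).filter (fun n => n.Prime ∧ (n + h).Prime)).image
      (fun p => (p, p + h))) with hU
  set V := (Finset.Icc 1 T).biUnion (fun h =>
    ((Finset.Ioc A (A + Z)).filter (fun n => n.Prime ∧ (n + h).Prime)).image
      (fun p => (p + h, p))) with hV
  have hsub : ((PA A Z) ×ˢ (PA A Z)).filter (fun x => x.1 < x.2 + T ∧ x.2 < x.1 + T) ⊆
      D ∪ (U ∪ V) := by
    rintro ⟨p, q⟩ hx
    rw [Finset.mem_filter, Finset.mem_product, mem_PA, mem_PA] at hx
    obtain ⟨⟨⟨hp, hpA, hpZ⟩, hq, hqA, hqZ⟩, h1, h2⟩ := hx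
    simp only at hp hpA hpZ hq hqA hqZ h1 h2
    rw [Finset.mem_union, Finset.mem_union]
    rcases lt_trichotomy p q with h | h | h
    · right; left
      rw [hU, Finset.mem_biUnion]
      refine ⟨q - p, Finset.mem_Icc.mpr ⟨by omega, by omega⟩, ?_⟩
      rw [Finset.mem_image]
      have h9 : p + (q - p) = q := by omega
      refine ⟨p, ?_, ?_⟩
      · rw [Finset.mem_filter, Finset.mem_Ioc, h9]
        exact ⟨⟨hpA, hpZ⟩, hp, hq⟩
      · rw [h9]
    · left
      rw [hD, Finset.mem_image]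
      exact ⟨p, mem_PA.mpr ⟨hp, hpA, hpZ⟩, by rw [h]⟩
    · right; right
      rw [hV, Finset.mem_biUnion]
      refine ⟨p - q, Finset.mem_Icc.mpr ⟨by omega, by omega⟩, ?_⟩
      rw [Finset.mem_image]
      have h9 : q + (p - q) = p := by omega
      refine ⟨q, ?_, ?_⟩
      · rw [Finset.mem_filter, Finset.mem_Ioc, h9]
        exact ⟨⟨hqA, hqZ⟩, hq, hp⟩
      · rw [h9]
  have hDc : D.card ≤ (PA A Z).card := Finset.card_image_le
  have hUc : U.card ≤ ∑ h ∈ Finset.Icc 1 T,
        ((Finset.Ioc A (A + Z)).filter (fun n => n.Prime ∧ (n + h).Prime)).card :=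
    Finset.card_biUnion_le.trans (Finset.sum_le_sum fun h _ => Finset.card_image_le)
  have hVc : V.card ≤ ∑ h ∈ Finset.Icc 1 T,
        ((Finset.Ioc A (A + Z)).filter (fun n => n.Prime ∧ (n + h).Prime)).card :=
    Finset.card_biUnion_le.trans (Finset.sum_le_sum fun h _ => Finset.card_image_le)
  have h1 := Finset.card_le_card hsub
  have h2 := Finset.card_union_le D (U ∪ V)
  have h3 := Finset.card_union_le U V
  omega

/-- second moment of primes in windows, local version -/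
lemma second_moment_loc (A U T : ℕ) :
    ∑ n ∈ Finset.Ico A (A + U), (pc n (n + T)) ^ 2 ≤
      T * ((PA A (U + T)).card + 2 * ∑ h ∈ Finset.Icc 1 T,
        ((Finset.Ioc A (A + (U + T))).filter (fun n => n.Prime ∧ (n + h).Prime)).card) := by
  classical
  set Z := U + T with hZ
  set Q := ((PA A Z) ×ˢ (PA A Z)).filter (fun x => x.1 < x.2 + T ∧ x.2 < x.1 + T) with hQ
  have h1 : ∀ n ∈ Finset.Ico A (A + U), (pc n (n + T)) ^ 2 =
      (Q.filter (fun x => (n < x.1 ∧ x.1 ≤ n + T) ∧ (n < x.2 ∧ x.2 ≤ n + T))).card := by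
    intro n hn
    rw [Finset.mem_Ico] at hn
    rw [sq, pc, ← Finset.card_product]
    congr 1
    ext ⟨p, q⟩
    rw [Finset.mem_product, Finset.mem_filter, Finset.mem_filter, Finset.mem_Ioc, Finset.mem_Ioc,
      Finset.mem_filter, hQ, Finset.mem_filter, Finset.mem_product, mem_PA, mem_PA]
    constructor
    · rintro ⟨⟨h1, h2⟩, h3, h4⟩
      simp only at h1 h2 h3 h4 ⊢
      exact ⟨⟨⟨⟨h2, by omega, by omega⟩, h4, by omega, by omega⟩, by omega, by omega⟩, h1, h3⟩
    · rintro ⟨⟨⟨⟨h1, _⟩, h2, _⟩, _⟩, h3, h4⟩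
      exact ⟨⟨h3, h1⟩, h4, h2⟩
  rw [Finset.sum_congr rfl h1]
  have h2 : ∀ x ∈ Q, (∑ n ∈ Finset.Ico A (A + U),
      if (n < x.1 ∧ x.1 ≤ n + T) ∧ (n < x.2 ∧ x.2 ≤ n + T) then 1 else 0) ≤ T := by
    intro x _
    rw [← Finset.card_filter]
    have : (Finset.Ico A (A + U)).filter
        (fun n => (n < x.1 ∧ x.1 ≤ n + T) ∧ (n < x.2 ∧ x.2 ≤ n + T)) ⊆
        Finset.Ico (x.1 - T) x.1 := by
      intro n hn
      rw [Finset.mem_filter] at hn
      rw [Finset.mem_Ico]
      omega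
    refine (Finset.card_le_card this).trans ?_
    rw [Nat.card_Ico]
    omega
  have h3 : ∑ n ∈ Finset.Ico A (A + U),
      (Q.filter (fun x => (n < x.1 ∧ x.1 ≤ n + T) ∧ (n < x.2 ∧ x.2 ≤ n + T))).card ≤ T * Q.card := by
    simp only [Finset.card_filter]
    rw [Finset.sum_comm]
    refine (Finset.sum_le_sum h2).trans ?_
    rw [Finset.sum_const, smul_eq_mul, mul_comm]
  exact h3.trans (Nat.mul_le_mul_left _ (close_pairs_loc A Z T))

open Classical in
/-- Points just to the left of a sparse-enough set of primes: second moment method. -/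
lemma moment_method_loc (G : Finset ℕ) (X N T : ℕ) (hG : ∀ g ∈ G, X + T ≤ g ∧ g < N ∧ g.Prime)
    (B : ℝ) (hB : 0 < B)
    (hmom : ∑ n ∈ Finset.Ico X N, ((pc n (n + T) : ℝ)) ^ 2 ≤ B) :
    ((T : ℝ) * G.card) ^ 2 / B ≤
      (((Finset.Ico X N).filter (fun m => ∃ g ∈ G, m < g ∧ g ≤ m + T)).card : ℝ) := by
  set A := (Finset.Ico X N).filter (fun m => ∃ g ∈ G, m < g ∧ g ≤ m + T) with hA
  let r : ℕ → ℕ := fun m => (G.filter (fun g => m < g ∧ g ≤ m + T)).card
  -- total mass
  have h1 : T * G.card ≤ ∑ m ∈ A, r m := by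
    have h2 : ∑ m ∈ Finset.Ico X N, r m = ∑ m ∈ A, r m := by
      rw [hA, Finset.sum_filter]
      apply Finset.sum_congr rfl
      intro m _
      split_ifs with h
      · rfl
      · simp only [r]
        rw [Finset.card_eq_zero, Finset.filter_eq_empty_iff]
        intro g hg hh
        exact h ⟨g, hg, hh⟩
    rw [← h2]
    simp only [r, Finset.card_filter]
    rw [Finset.sum_comm]
    have h3 : ∀ g ∈ G, T ≤ ∑ m ∈ Finset.Ico X N, if m < g ∧ g ≤ m + T then 1 else 0 := by
      intro g hg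
      obtain ⟨hg1, hg2, -⟩ := hG g hg
      rw [← Finset.card_filter]
      have h4 : Finset.Ico (g - T) g ⊆ (Finset.Ico X N).filter (fun m => m < g ∧ g ≤ m + T) := by
        intro m hm
        rw [Finset.mem_Ico] at hm
        rw [Finset.mem_filter, Finset.mem_Ico]
        omega
      have h5 := Finset.card_le_card h4
      rw [Nat.card_Ico] at h5
      omega
    calc T * G.card = ∑ _g ∈ G, T := by rw [Finset.sum_const, smul_eq_mul, mul_comm]
      _ ≤ _ := Finset.sum_le_sum h3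
  have h1r : (T : ℝ) * G.card ≤ ∑ m ∈ A, (r m : ℝ) := by exact_mod_cast h1
  -- second moment
  have h2 : ∑ m ∈ A, (r m : ℝ) ^ 2 ≤ B := by
    refine le_trans ?_ hmom
    have h3 : A ⊆ Finset.Ico X N := Finset.filter_subset _ _
    refine (Finset.sum_le_sum (fun m _ => ?_)).trans
      (Finset.sum_le_sum_of_subset_of_nonneg h3 (fun _ _ _ => by positivity))
    have h4 : r m ≤ pc m (m + T) := by
      simp only [r, pc]
      apply Finset.card_le_card
      intro g hg
      rw [Finset.mem_filter] at hg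
      rw [Finset.mem_filter, Finset.mem_Ioc]
      exact ⟨hg.2, (hG g hg.1).2.2⟩
    have h5 : (r m : ℝ) ≤ pc m (m + T) := by exact_mod_cast h4
    gcongr
  -- Cauchy-Schwarz
  have h3 : (∑ m ∈ A, (r m : ℝ)) ^ 2 ≤ (A.card : ℝ) * ∑ m ∈ A, (r m : ℝ) ^ 2 :=
    sq_sum_le_card_mul_sum_sq
  rw [div_le_iff₀ hB]
  calc ((T : ℝ) * G.card) ^ 2 ≤ (∑ m ∈ A, (r m : ℝ)) ^ 2 := by gcongr
    _ ≤ (A.card : ℝ) * ∑ m ∈ A, (r m : ℝ) ^ 2 := h3
    _ ≤ (A.card : ℝ) * B := by gcongr

end Pool.Agent.W123.LR
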