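import Pool.Agent.W123.LR.Gen
import Pool.Agent.H357R2.SI.TwoSided
import Pool.Agent.H932R4.MO.Final

set_option autoImplicit false

open Filter Topology

namespace Pool.Agent.W123.LR

open Pool.Agent.H357R2.SI Pool.Agent.W123.FS

/-- `n` is a regular point: every interval `(a, b]` with `a ≤ n ≤ b` and
`K log n ≤ b - a ≤ n` contains between `c₁ (b - a) / log n` and `c₂ (b - a) / log n` primes -/
def Reg (c₁ c₂ K : ℝ) (n : ℕ) : Prop :=
  ∀ a b : ℕ, a ≤ n → n ≤ b → K * Real.log n ≤ (b : ℝ) - a → (b : ℝ) - a ≤ n →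
    c₁ * ((b : ℝ) - a) / Real.log n ≤ (((Finset.Ioc a b).filter Nat.Prime).card : ℝ) ∧
      (((Finset.Ioc a b).filter Nat.Prime).card : ℝ) ≤ c₂ * ((b : ℝ) - a) / Real.log n

lemma reg_of_sides (n : ℕ) (L c₃ Λ K' : ℝ) (hL0 : 0 < L) (hLn : L ≤ Real.log n)
    (hnL : Real.log n ≤ 2 * L) (hc₃ : 0 < c₃) (hΛ : 0 < Λ) (hK' : 0 < K')
    (hRD : ∀ H : ℕ, K' * L ≤ H → H ≤ n → c₃ * H / L ≤ pc n (n + H))
    (hLD : ∀ H : ℕ, K' * L ≤ H → H ≤ n → c₃ * H / L ≤ pc (n - H) n)
    (hRU : ∀ H : ℕ, H ≤ n → (pc n (n + H) : ℝ) ≤ Λ * H / L)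
    (hLU : ∀ H : ℕ, H ≤ n → (pc (n - H) n : ℝ) ≤ Λ * H / L) :
    Reg (c₃ / 2) (2 * Λ) (2 * K') n := by
  intro a b han hnb hK hbn
  have hlogn : 0 < Real.log n := lt_of_lt_of_le hL0 hLn
  obtain ⟨H1, rfl⟩ : ∃ H1, n = a + H1 := ⟨n - a, by omega⟩
  obtain ⟨H2, rfl⟩ : ∃ H2, b = a + H1 + H2 := ⟨b - (a + H1), by omega⟩
  change _ ≤ (pc a (a + H1 + H2) : ℝ) ∧ (pc a (a + H1 + H2) : ℝ) ≤ _
  have e1 : (pc a (a + H1) : ℝ) + pc (a + H1) (a + H1 + H2) = pc a (a + H1 + H2) := by
    exact_mod_cast pc_add (by omega) (by omega)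
  have e2 : a + H1 - H1 = a := by omega
  have e3 : ((a + H1 + H2 : ℕ) : ℝ) - a = H1 + H2 := by push_cast; ring
  rw [e3] at hK hbn ⊢
  have hsum : H1 + H2 ≤ a + H1 := by exact_mod_cast hbn
  have h1 := hRU H2 (by omega)
  have h2 := hLU H1 (by omega)
  rw [e2] at h2
  have p1 : (0 : ℝ) ≤ pc a (a + H1) := Nat.cast_nonneg _
  have p2 : (0 : ℝ) ≤ pc (a + H1) (a + H1 + H2) := Nat.cast_nonneg _
  constructor
  · rcases le_total H1 H2 with hle | hle
    · have hler : (H1 : ℝ) ≤ H2 := by exact_mod_cast hle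
      have h3 := hRD H2 (by nlinarith) (by omega)
      have h4 : c₃ / 2 * ((H1 : ℝ) + H2) / Real.log ((a + H1 : ℕ) : ℝ) ≤ c₃ * H2 / L := by
        apply div_le_div₀ (by positivity) _ hL0 hLn
        nlinarith
      linarith
    · have hler : (H2 : ℝ) ≤ H1 := by exact_mod_cast hle
      have h3 := hLD H1 (by nlinarith) (by omega)
      rw [e2] at h3
      have h4 : c₃ / 2 * ((H1 : ℝ) + H2) / Real.log ((a + H1 : ℕ) : ℝ) ≤ c₃ * H1 / L := by
        apply div_le_div₀ (by positivity) _ hL0 hLn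
        nlinarith
      linarith
  · have h3 : Λ * H1 / L + Λ * H2 / L ≤ 2 * Λ * ((H1 : ℝ) + H2) / Real.log ((a + H1 : ℕ) : ℝ) := by
      rw [← add_div, div_le_div_iff₀ hL0 hlogn]
      have h5 : 0 ≤ Λ * ((H1 : ℝ) + H2) := by positivity
      nlinarith
    linarith

lemma rpow_two_mul_le {X n Y : ℕ} {θ : ℝ} (hθ0 : 0 < θ) (hθ1 : θ ≤ 1) (hn : n ≤ 2 * X)
    (hY : (X : ℝ) ^ θ ≤ Y) : (n : ℝ) ^ θ ≤ 2 * Y := by
  have h1 : (n : ℝ) ≤ 2 * X := by exact_mod_cast hn
  calc (n : ℝ) ^ θ ≤ (2 * (X : ℝ)) ^ θ := Real.rpow_le_rpow (by positivity) h1 hθ0.le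
    _ = 2 ^ θ * (X : ℝ) ^ θ := Real.mul_rpow (by norm_num) (by positivity)
    _ ≤ 2 * Y := by
        apply mul_le_mul _ hY (by positivity) (by norm_num)
        calc (2 : ℝ) ^ θ ≤ 2 ^ (1 : ℝ) := Real.rpow_le_rpow_of_exponent_le (by norm_num) hθ1
          _ = 2 := Real.rpow_one _

/-- the pointwise part -/
lemma reg_point (X Y n g T X₀ Y₀ : ℕ) (θ cS lam L K' : ℝ) (hθ0 : 0 < θ) (hθ1 : θ ≤ 1)
    (hcS : 0 < cS) (hlam : 0 < lam) (hL : L = Real.log X) (hL2 : 2 ≤ L)
    (hYθ : (X : ℝ) ^ θ ≤ Y) (hYX : Y ≤ X) (hXX : 2 * X₀ + 2 ≤ X) (hX₀ : 2 ≤ X₀)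
    (hS : ∀ m H : ℕ, X₀ ≤ m → (m : ℝ) ^ θ ≤ H → H ≤ m → cS * H / Real.log m ≤ pc m (m + H))
    (hbt : ∀ A H : ℕ, Y₀ ≤ H → (pc A (A + H) : ℝ) ≤ 3 * H / Real.log H) (hYY : Y₀ ≤ Y)
    (hT1 : (T : ℝ) ≤ L) (hK' : K' = 2 + 16 * lam / cS) (hYK : 2 * (K' + 1) * L ≤ Y)
    (hnX : X < n) (hnY : n ≤ X + Y) (hng : n < g) (hgT : g ≤ n + T)
    (fR : ∀ H : ℕ, 1 ≤ H → H ≤ Y → (pc n (n + H) : ℝ) ≤ lam / L * H)
    (fL : ∀ H : ℕ, 1 ≤ H → H ≤ Y → (pc (n - H) n : ℝ) ≤ lam / L * H)
    (gR : ∀ H : ℕ, 1 ≤ H → H ≤ Y → cS / (8 * L) * H ≤ pcl g (g + H))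
    (gL : ∀ H : ℕ, 1 ≤ H → H ≤ Y → cS / (8 * L) * H ≤ pcl (g + 1 - H) (g + 1)) :
    Reg (cS / 512) (2 * (lam + 3 / θ)) (2 * K') n := by
  have hL0 : 0 < L := by linarith
  have hXpos : (0 : ℝ) < X := by exact_mod_cast (by omega : 0 < X)
  have hK'2 : 2 ≤ K' := by rw [hK']; have : 0 ≤ 16 * lam / cS := by positivity
                           linarith
  have hn2X : n ≤ 2 * X := by omega
  have hnXr : (X : ℝ) ≤ n := by exact_mod_cast hnX.le
  have hnr : (n : ℝ) ≤ 2 * X := by exact_mod_cast hn2X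
  have hLn : L ≤ Real.log n := by rw [hL]; exact Real.log_le_log hXpos hnXr
  have hnL : Real.log n ≤ 2 * L := by
    have h1 : Real.log n ≤ Real.log (2 * X) := Real.log_le_log (by linarith) hnr
    rw [Real.log_mul (by norm_num) hXpos.ne', ← hL] at h1
    have := Real.log_two_lt_d9
    norm_num at this
    linarith
  have hlogn : 0 < Real.log n := by linarith
  have hYpos : (0 : ℝ) < Y := lt_of_lt_of_le (by positivity) hYK
  have hlogY : θ * L ≤ Real.log Y := by
    rw [hL, ← Real.log_rpow hXpos]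
    exact Real.log_le_log (by positivity) hYθ
  have hTY : 2 * (T : ℝ) ≤ Y := by nlinarith
  have hTYn : 2 * T ≤ Y := by exact_mod_cast hTY
  -- upper bounds
  have hlarge : ∀ A H : ℕ, Y ≤ H → (pc A (A + H) : ℝ) ≤ (lam + 3 / θ) * H / L := by
    intro A H hH
    refine (hbt A H (by omega)).trans ?_
    have hHr : (Y : ℝ) ≤ H := by exact_mod_cast hH
    have h1 : θ * L ≤ Real.log H := hlogY.trans (Real.log_le_log hYpos hHr)
    calc 3 * (H : ℝ) / Real.log H ≤ 3 * H / (θ * L) := by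
          apply div_le_div_of_nonneg_left (by positivity) (by positivity) h1
      _ = 3 / θ * H / L := by field_simp
      _ ≤ (lam + 3 / θ) * H / L := by
          apply div_le_div_of_nonneg_right _ hL0.le
          apply mul_le_mul_of_nonneg_right _ (Nat.cast_nonneg _)
          linarith
  have hsmall : ∀ H : ℕ, lam / L * (H : ℝ) ≤ (lam + 3 / θ) * H / L := by
    intro H
    rw [div_mul_eq_mul_div]
    apply div_le_div_of_nonneg_right _ hL0.le
    apply mul_le_mul_of_nonneg_right _ (Nat.cast_nonneg _)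
    have : 0 < 3 / θ := by positivity
    linarith
  have hRU : ∀ H : ℕ, H ≤ n → (pc n (n + H) : ℝ) ≤ (lam + 3 / θ) * H / L := by
    intro H _
    rcases Nat.eq_zero_or_pos H with h0 | h0
    · subst h0
      rw [add_zero, pc_self]
      simp
    rcases le_total H Y with h | h
    · exact (fR H h0 h).trans (hsmall H)
    · exact hlarge n H h
  have hLU : ∀ H : ℕ, H ≤ n → (pc (n - H) n : ℝ) ≤ (lam + 3 / θ) * H / L := by
    intro H hHn
    rcases Nat.eq_zero_or_pos H with h0 | h0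
    · subst h0
      rw [Nat.sub_zero, pc_self]
      simp
    rcases le_total H Y with h | h
    · exact (fL H h0 h).trans (hsmall H)
    · have h1 := hlarge (n - H) H h
      rwa [Nat.sub_add_cancel hHn] at h1
  -- lower bound on the right, up to Y
  have hR1 : ∀ H : ℕ, K' * L ≤ H → H ≤ Y → cS * H / (16 * L) ≤ pc n (n + H) := by
    intro H hH1 hH2
    have h2T : 2 * (T : ℝ) ≤ H := by nlinarith
    have h2Tn : 2 * T ≤ H := by exact_mod_cast h2T
    have hT0 : (0 : ℝ) ≤ T := Nat.cast_nonneg T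
    have hHpos : (0 : ℝ) < H := lt_of_lt_of_le (by positivity) hH1
    have hHposn : 0 < H := by exact_mod_cast hHpos
    obtain ⟨H', hH'⟩ : ∃ H' : ℕ, g + H' = n + H + 1 := ⟨n + H + 1 - g, by omega⟩
    have h3 := gR H' (by omega) (by omega)
    have h4 : (pcl g (g + H') : ℝ) ≤ pc n (n + H) := by
      exact_mod_cast pcl_le_pc hng hH'.le
    have h5 : (H : ℝ) / 2 ≤ H' := by
      have : H ≤ 2 * H' := by omega
      have : (H : ℝ) ≤ 2 * H' := by exact_mod_cast this
      linarith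
    calc cS * H / (16 * L) = cS / (8 * L) * ((H : ℝ) / 2) := by field_simp; norm_num
      _ ≤ cS / (8 * L) * H' := by gcongr
      _ ≤ _ := h3.trans h4
  have hRD : ∀ H : ℕ, K' * L ≤ H → H ≤ n → cS / 256 * H / L ≤ pc n (n + H) := by
    intro H hH1 hH2
    have hH0 : (0 : ℝ) ≤ H := Nat.cast_nonneg H
    rcases le_total H Y with h | h
    · refine le_trans ?_ (hR1 H hH1 h)
      rw [div_le_div_iff₀ hL0 (by positivity)]
      have : 0 ≤ cS * H * L := by positivity
      nlinarith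
    rcases le_total H (4 * Y) with h' | h'
    · have h1 := hR1 Y (by nlinarith) le_rfl
      have h2 : (pc n (n + Y) : ℝ) ≤ pc n (n + H) := by exact_mod_cast pc_mono (by omega)
      refine le_trans ?_ (h1.trans h2)
      have h3 : (H : ℝ) ≤ 4 * Y := by exact_mod_cast h'
      rw [div_le_div_iff₀ hL0 (by positivity)]
      calc cS / 256 * (H : ℝ) * (16 * L) ≤ cS / 256 * (4 * Y) * (16 * L) := by gcongr
        _ ≤ cS * Y * L := by
            have : 0 ≤ cS * Y * L := by positivity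
            nlinarith
    · have h1 : (n : ℝ) ^ θ ≤ H := by
        have h2 := rpow_two_mul_le hθ0 hθ1 hn2X hYθ
        have h3 : (4 : ℝ) * Y ≤ H := by exact_mod_cast h'
        linarith
      refine le_trans ?_ (hS n H (by omega) h1 hH2)
      rw [div_le_div_iff₀ hL0 hlogn]
      have h4 : cS / 256 * (H : ℝ) * Real.log n ≤ cS / 256 * H * (2 * L) := by gcongr
      have : 0 ≤ cS * H * L := by positivity
      nlinarith
  -- lower bound on the left
  have hL1 : ∀ H : ℕ, K' * L ≤ H → H + T ≤ Y → cS * H / (16 * L) ≤ pc (n - H) n := by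
    intro H hH1 hH2
    have hHpos : (0 : ℝ) < H := lt_of_lt_of_le (by positivity) hH1
    have hHposn : 0 < H := by exact_mod_cast hHpos
    have h3 := gL (H + (g - n)) (by omega) (by omega)
    have e1 : g + 1 - (H + (g - n)) = n + 1 - H := by omega
    rw [e1] at h3
    have h4 : (pcl (n + 1 - H) (g + 1) : ℝ) ≤ pc (n - H) n + pc n (n + T) := by
      have h5 : pcl (n + 1 - H) (g + 1) = pc (n - H) g := by
        unfold pcl pc
        congr 1
        ext x
        rw [Finset.mem_filter, Finset.mem_filter, Finset.mem_Ico, Finset.mem_Ioc]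
        constructor
        · rintro ⟨h6, h7⟩; exact ⟨by omega, h7⟩
        · rintro ⟨h6, h7⟩; exact ⟨by omega, h7⟩
      rw [h5]
      have h6 : pc (n - H) n + pc n g = pc (n - H) g := pc_add (by omega) (by omega)
      have h7 : pc n g ≤ pc n (n + T) := pc_mono hgT
      have h8 : pc (n - H) g ≤ pc (n - H) n + pc n (n + T) := by omega
      exact_mod_cast h8
    have h5 : (pc n (n + T) : ℝ) ≤ lam := by
      rcases Nat.eq_zero_or_pos T with h0 | h0
      · rw [h0, add_zero, pc_self]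
        simpa using hlam.le
      · refine (fR T h0 (by omega)).trans ?_
        rw [div_mul_eq_mul_div, div_le_iff₀ hL0]
        gcongr
    have h6 : (H : ℝ) ≤ ((H + (g - n) : ℕ) : ℝ) := by push_cast; linarith [(Nat.cast_nonneg (g - n) : (0 : ℝ) ≤ ((g - n : ℕ) : ℝ))]
    have h7 : cS / (8 * L) * H ≤ cS / (8 * L) * ((H + (g - n) : ℕ) : ℝ) := by gcongr
    have h8 : lam ≤ cS * H / (16 * L) := by
      rw [le_div_iff₀ (by positivity)]
      have h9 : (16 * lam / cS) * L ≤ H := by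
        have : (16 * lam / cS) * L ≤ K' * L := by
          apply mul_le_mul_of_nonneg_right _ hL0.le
          rw [hK']; linarith
        linarith
      rw [div_mul_eq_mul_div, div_le_iff₀ hcS] at h9
      linarith
    have h10 : cS / (8 * L) * (H : ℝ) = cS * H / (16 * L) + cS * H / (16 * L) := by
      field_simp; norm_num
    linarith
  have hLD : ∀ H : ℕ, K' * L ≤ H → H ≤ n → cS / 256 * H / L ≤ pc (n - H) n := by
    intro H hH1 hH2
    have hH0 : (0 : ℝ) ≤ H := Nat.cast_nonneg H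
    rcases Nat.lt_or_ge Y (H + T) with h | h
    · rcases le_total H (8 * Y) with h' | h'
      · have hYT : ((Y - T : ℕ) : ℝ) = (Y : ℝ) - T := by
          rw [Nat.cast_sub (by omega)]
        have h1 := hL1 (Y - T) (by rw [hYT]; nlinarith) (by omega)
        have h2 : (pc (n - (Y - T)) n : ℝ) ≤ pc (n - H) n := by
          exact_mod_cast pc_anti (by omega)
        refine le_trans ?_ (h1.trans h2)
        rw [hYT]
        have h3 : (H : ℝ) ≤ 8 * Y := by exact_mod_cast h'
        rw [div_le_div_iff₀ hL0 (by positivity)]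
        have h4 : (Y : ℝ) / 2 ≤ Y - T := by linarith
        calc cS / 256 * (H : ℝ) * (16 * L) ≤ cS / 256 * (8 * Y) * (16 * L) := by gcongr
          _ = cS * (Y / 2) * L := by ring
          _ ≤ cS * (Y - T) * L := by gcongr
      · have hX4 : 4 * Y < X := by omega
        set H1 : ℕ := min H (n / 2) with hH1def
        have b1 : H1 ≤ H := min_le_left _ _
        have b2 : H1 ≤ n / 2 := min_le_right _ _
        have b3 : 2 * Y ≤ H1 := le_min (by omega) (by omega)
        have b4 : H ≤ 4 * H1 := by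
          rcases le_total H (n / 2) with h9 | h9
          · rw [hH1def, min_eq_left h9]; omega
          · rw [hH1def, min_eq_right h9]; omega
        have h1 : ((n - H1 : ℕ) : ℝ) ^ θ ≤ H1 := by
          have h2 := rpow_two_mul_le (n := n - H1) hθ0 hθ1 (by omega) hYθ
          have h3 : (2 : ℝ) * Y ≤ H1 := by exact_mod_cast b3
          linarith
        have h2 := hS (n - H1) H1 (by omega) h1 (by omega)
        rw [Nat.sub_add_cancel (by omega)] at h2
        have h3 : (pc (n - H1) n : ℝ) ≤ pc (n - H) n := by exact_mod_cast pc_anti (by omega)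
        refine le_trans ?_ (h2.trans h3)
        have hmpos : (1 : ℝ) < ((n - H1 : ℕ) : ℝ) := by exact_mod_cast (by omega : 1 < n - H1)
        have hlogm : 0 < Real.log ((n - H1 : ℕ) : ℝ) := Real.log_pos hmpos
        have hlogm2 : Real.log ((n - H1 : ℕ) : ℝ) ≤ 2 * L := by
          refine le_trans (Real.log_le_log (by linarith) ?_) hnL
          exact_mod_cast Nat.sub_le _ _
        have b4r : (H : ℝ) ≤ 4 * H1 := by exact_mod_cast b4
        rw [div_le_div_iff₀ hL0 hlogm]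
        calc cS / 256 * (H : ℝ) * Real.log ((n - H1 : ℕ) : ℝ) ≤
            cS / 256 * (4 * H1) * (2 * L) := by gcongr
          _ ≤ cS * H1 * L := by
              have : 0 ≤ cS * H1 * L := by positivity
              nlinarith
    · refine le_trans ?_ (hL1 H hH1 h)
      rw [div_le_div_iff₀ hL0 (by positivity)]
      have : 0 ≤ cS * H * L := by positivity
      nlinarith
  have hfin := reg_of_sides n L (cS / 256) (lam + 3 / θ) K' hL0 hLn hnL (by positivity)
    (by positivity) (by linarith) hRD hLD hRU hLU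
  have e : cS / 256 / 2 = cS / 512 := by ring
  rw [e] at hfin
  exact hfin

end Pool.Agent.W123.LR
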